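import Mathlib

/-!
Exhaustive simplification by the rules (S1) and (S2) does not produce a unique simplest position.
-/

namespace Pool.Agent.Results.MP_31d4f2_co.NotConfluent

/-- Positions: the terminal positions `*L` and `*R`, and the positions `{G_1, ..., G_k}` with a
finite nonempty family of options (`k = n + 1`). -/
inductive Pos : Type
  | termL : Pos
  | termR : Pos
  | node (n : ℕ) (opt : Fin (n + 1) → Pos) : Pos

namespace Pos

/-- The disjunctive sum `G + H`, by recursion on `G` and then on `H`. It is terminal exactly when
both summands are, with `*L + *L = *R + *R = *L` and `*L + *R = *R + *L = *R`. If `G` is terminal and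
`H = {H_j}` the options are the `G + H_j`; if `G = {G_i}` and `H` is terminal the options are the
`G_i + H`; if `G = {G_i}` and `H = {H_j}` the options are the `G_i + H` followed by the `G + H_j`.
(In the code `F i` stands for the function `H ↦ G_i + H`, and `ih j` for `G + H_j`.) -/
noncomputable def add (G : Pos) : Pos → Pos :=
  Pos.rec (motive := fun _ => Pos → Pos)
    (fun H => Pos.rec (motive := fun _ => Pos) termL termR (fun m _ ih => node m ih) H)
    (fun H => Pos.rec (motive := fun _ => Pos) termR termL (fun m _ ih => node m ih) H)
    (fun n _ F H => Pos.rec (motive := fun _ => Pos)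
      (node n (fun i => F i termL))
      (node n (fun i => F i termR))
      (fun m g ih => node (n + 1 + m)
        (Fin.append (m := n + 1) (n := m + 1) (fun i => F i (node m g)) ih))
      H)
    G

theorem add_termL_termL : add termL termL = termL := rfl
theorem add_termL_termR : add termL termR = termR := rfl
theorem add_termR_termL : add termR termL = termR := rfl
theorem add_termR_termR : add termR termR = termL := rfl
theorem add_termL_node (m : ℕ) (g : Fin (m + 1) → Pos) :
    add termL (node m g) = node m (fun j => add termL (g j)) := rfl
theorem add_termR_node (m : ℕ) (g : Fin (m + 1) → Pos) :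
    add termR (node m g) = node m (fun j => add termR (g j)) := rfl
theorem add_node_termL (n : ℕ) (f : Fin (n + 1) → Pos) :
    add (node n f) termL = node n (fun i => add (f i) termL) := rfl
theorem add_node_termR (n : ℕ) (f : Fin (n + 1) → Pos) :
    add (node n f) termR = node n (fun i => add (f i) termR) := rfl
theorem add_node_node (n m : ℕ) (f : Fin (n + 1) → Pos) (g : Fin (m + 1) → Pos) :
    add (node n f) (node m g) =
      node (n + 1 + m) (Fin.append (m := n + 1) (n := m + 1)
        (fun i => add (f i) (node m g)) (fun j => add (node n f) (g j))) :=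
  rfl

/-- `LeftWins G b`: Left wins the position `G` under optimal play, where Left is to move if
`b = true` and Right is to move if `b = false`. Both players have the same options; Left wins at
`*L` and Right wins at `*R`. -/
inductive LeftWins : Pos → Bool → Prop
  | terminal (b : Bool) : LeftWins termL b
  | leftMoves (n : ℕ) (f : Fin (n + 1) → Pos) (i : Fin (n + 1)) (h : LeftWins (f i) false) :
      LeftWins (node n f) true
  | rightMoves (n : ℕ) (f : Fin (n + 1) → Pos) (h : ∀ i, LeftWins (f i) true) :
      LeftWins (node n f) false

/-- The four outcome classes. -/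
inductive Outcome : Type
  | classL : Outcome
  | classR : Outcome
  | classN : Outcome
  | classP : Outcome

open Classical in
/-- The outcome `o(G)`: `classL` if Left wins whoever moves first, `classR` if Right wins whoever
moves first, `classN` if the player who moves first wins, `classP` if the other player wins. -/
noncomputable def outcome (G : Pos) : Outcome :=
  if LeftWins G true ∧ LeftWins G false then .classL
  else if ¬ LeftWins G true ∧ ¬ LeftWins G false then .classR
  else if LeftWins G true ∧ ¬ LeftWins G false then .classN
  else .classP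

/-- Equivalence of positions: `o(G + X) = o(H + X)` for every position `X`. -/
def Equiv (G H : Pos) : Prop := ∀ X : Pos, outcome (add G X) = outcome (add H X)

/-- `IsOption K G`: `K` is an option of `G`. -/
inductive IsOption : Pos → Pos → Prop
  | mk (n : ℕ) (f : Fin (n + 1) → Pos) (i : Fin (n + 1)) : IsOption (f i) (node n f)

/-- Isomorphism: both `*L`, or both `*R`, or both non-terminal and each option of either one is
isomorphic to some option of the other. -/
inductive Iso : Pos → Pos → Prop
  | bothL : Iso termL termL
  | bothR : Iso termR termR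
  | both (n m : ℕ) (f : Fin (n + 1) → Pos) (g : Fin (m + 1) → Pos)
      (a : Fin (n + 1) → Fin (m + 1)) (b : Fin (m + 1) → Fin (n + 1))
      (ha : ∀ i, Iso (f i) (g (a i))) (hb : ∀ j, Iso (f (b j)) (g j)) : Iso (node n f) (node m g)

/-- The position `{G}` with the single option `G`. -/
def single (G : Pos) : Pos := node 0 (fun _ => G)

/-- One simplification step: (S1) for `*L`, (S1) for `*R`, (S2), or one of these applied to a
position occurring deeper in the game tree. -/
inductive Step : Pos → Pos → Prop
  /-- (S1): if some option is equivalent to `{*L}` and every option has an option equivalent to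
  `*L`, replace `G` by `*L`. -/
  | s1L (n : ℕ) (f : Fin (n + 1) → Pos) (i : Fin (n + 1)) (hi : Equiv (f i) (single termL))
      (h : ∀ j, ∃ K, IsOption K (f j) ∧ Equiv K termL) : Step (node n f) termL
  /-- (S1) with `*R` in place of `*L`. -/
  | s1R (n : ℕ) (f : Fin (n + 1) → Pos) (i : Fin (n + 1)) (hi : Equiv (f i) (single termR))
      (h : ∀ j, ∃ K, IsOption K (f j) ∧ Equiv K termR) : Step (node n f) termR
  /-- (S2): if there are at least two options and every option other than the `i`-th has an option
  equivalent to `{G_i}`, replace `G` by `{G_i}`. -/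
  | s2 (n : ℕ) (f : Fin (n + 1) → Pos) (i : Fin (n + 1)) (hn : 2 ≤ n + 1)
      (h : ∀ j, j ≠ i → ∃ K, IsOption K (f j) ∧ Equiv K (single (f i))) :
      Step (node n f) (single (f i))
  /-- A step inside the `i`-th option. -/
  | sub (n : ℕ) (f : Fin (n + 1) → Pos) (i : Fin (n + 1)) (H : Pos) (h : Step (f i) H) :
      Step (node n f) (node n (Function.update f i H))

/-- `H` is obtained from `G` by a finite sequence of simplification steps. -/
def SimplifiesTo (G H : Pos) : Prop := Relation.ReflTransGen Step G H

/-- A position is reduced if no step applies to it. -/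
def Reduced (G : Pos) : Prop := ∀ H, ¬ Step G H

/-! ### Proofs -/

theorem lw_termL (b : Bool) : LeftWins termL b ↔ True := ⟨fun _ => trivial, fun _ => .terminal b⟩

theorem lw_termR (b : Bool) : LeftWins termR b ↔ False := ⟨(fun h => nomatch h), False.elim⟩

theorem lw_node_true (n : ℕ) (f : Fin (n + 1) → Pos) :
    LeftWins (node n f) true ↔ ∃ i, LeftWins (f i) false :=
  ⟨fun h => (by cases h with | leftMoves _ _ i h => exact ⟨i, h⟩), fun ⟨i, h⟩ => .leftMoves n f i h⟩

theorem lw_node_false (n : ℕ) (f : Fin (n + 1) → Pos) :
    LeftWins (node n f) false ↔ ∀ i, LeftWins (f i) true :=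
  ⟨fun h => (by cases h with | rightMoves _ _ h => exact h), fun h => .rightMoves n f h⟩

theorem add_node_node_true (n m : ℕ) (f : Fin (n + 1) → Pos) (g : Fin (m + 1) → Pos) :
    LeftWins (add (node n f) (node m g)) true ↔
      (∃ i, LeftWins (add (f i) (node m g)) false) ∨ ∃ j, LeftWins (add (node n f) (g j)) false := by
  rw [add_node_node, lw_node_true]
  constructor
  · rintro ⟨k, hk⟩
    revert hk
    refine Fin.addCases (m := n + 1) (n := m + 1) (fun i hk => ?_) (fun j hk => ?_) k
    · rw [Fin.append_left] at hk; exact Or.inl ⟨i, hk⟩
    · rw [Fin.append_right] at hk; exact Or.inr ⟨j, hk⟩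
  · rintro (⟨i, hi⟩ | ⟨j, hj⟩)
    · exact ⟨Fin.castAdd (m + 1) i, by rw [Fin.append_left]; exact hi⟩
    · exact ⟨Fin.natAdd (n + 1) j, by rw [Fin.append_right]; exact hj⟩

theorem add_node_node_false (n m : ℕ) (f : Fin (n + 1) → Pos) (g : Fin (m + 1) → Pos) :
    LeftWins (add (node n f) (node m g)) false ↔
      (∀ i, LeftWins (add (f i) (node m g)) true) ∧ ∀ j, LeftWins (add (node n f) (g j)) true := by
  rw [add_node_node, lw_node_false]
  constructor
  · intro h
    refine ⟨fun i => ?_, fun j => ?_⟩
    · have := h (Fin.castAdd (m + 1) i)
      rw [Fin.append_left] at this; exact this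
    · have := h (Fin.natAdd (n + 1) j)
      rw [Fin.append_right] at this; exact this
  · rintro ⟨h1, h2⟩ k
    refine Fin.addCases (m := n + 1) (n := m + 1) (fun i => ?_) (fun j => ?_) k
    · rw [Fin.append_left]; exact h1 i
    · rw [Fin.append_right]; exact h2 j

theorem equiv_iff (G H : Pos) :
    Equiv G H ↔ ∀ X b, (LeftWins (add G X) b ↔ LeftWins (add H X) b) := by
  constructor
  · intro h X b
    have := h X
    unfold outcome at this
    by_cases h1 : LeftWins (add G X) true <;> by_cases h2 : LeftWins (add G X) false <;>
      by_cases h3 : LeftWins (add H X) true <;> by_cases h4 : LeftWins (add H X) false <;>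
      cases b <;> simp_all
  · intro h X
    have h1 := propext (h X true)
    have h2 := propext (h X false)
    unfold outcome
    by_cases h3 : LeftWins (add H X) true <;> by_cases h4 : LeftWins (add H X) false <;>
      simp_all

theorem Equiv.refl (G : Pos) : Equiv G G := fun _ => rfl

/-- The position `A = {*L, {*L}}`. -/
def A : Pos := node 1 ![termL, single termL]

/-- The counterexample `G = {{*L, {*L}}, {*L}}`. -/
def G : Pos := node 1 ![A, single termL]

/-- `{A}` is equivalent to `*L`. -/
theorem single_A_equiv : Equiv (single A) termL := by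
  rw [equiv_iff]
  intro X
  induction X with
  | termL =>
    intro b
    cases b <;>
      simp [single, A, add_termL_termL, add_node_termL, lw_termL, lw_node_true, lw_node_false,
        Fin.exists_fin_two]
  | termR =>
    intro b
    cases b <;>
      simp [single, A, add_termL_termR, add_node_termR, lw_termR, lw_node_true, lw_node_false,
        Fin.forall_fin_two, Fin.exists_fin_two]
  | node m g ih =>
    intro b
    cases b
    · rw [single, add_node_node_false, add_termL_node, lw_node_false]
      constructor
      · rintro ⟨-, h⟩ j
        exact (ih j true).1 (h j)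
      · intro h
        refine ⟨fun _ => ?_, fun j => (ih j true).2 (h j)⟩
        rw [A, add_node_node_true]
        left
        refine ⟨0, ?_⟩
        simp only [Matrix.cons_val_zero]
        rw [add_termL_node, lw_node_false]
        exact h
    · rw [single, add_node_node_true, add_termL_node, lw_node_true]
      constructor
      · rintro (⟨-, h⟩ | ⟨j, h⟩)
        · rw [A, add_node_node_false] at h
          have := h.1 0
          simp only [Matrix.cons_val_zero] at this
          rw [add_termL_node, lw_node_true] at this
          exact this
        · exact ⟨j, (ih j false).1 h⟩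
      · rintro ⟨j, h⟩
        exact Or.inr ⟨j, (ih j false).2 h⟩

/-- The test position `{*L, *R}`. -/
def T₁ : Pos := node 1 ![termL, termR]
/-- The test position `{{*L, *R}}`. -/
def T₂ : Pos := node 0 (fun _ => T₁)
/-- The test position `{{{*L, *R}}}`. -/
def T₃ : Pos := node 0 (fun _ => T₂)

theorem not_equiv_of {G H : Pos} (X : Pos) (b : Bool) (h1 : LeftWins (add G X) b)
    (h2 : ¬ LeftWins (add H X) b) : ¬ Equiv G H := fun h =>
  h2 (((equiv_iff G H).1 h X b).1 h1)

/-- Left to move wins `*L + {*L, *R}`. -/
theorem lw1 : LeftWins (add termL T₁) true := by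
  simp [T₁, add_termL_node, lw_node_true, Fin.exists_fin_two, add_termL_termL, lw_termL]

/-- Right to move wins `*L + {*L, *R}`. -/
theorem lw2 : ¬ LeftWins (add termL T₁) false := by
  simp [T₁, add_termL_node, lw_node_false, Fin.forall_fin_two, add_termL_termR, lw_termR]

/-- Right to move loses `*L + {{*L, *R}}`. -/
theorem lw3 : LeftWins (add termL T₂) false := by
  rw [T₂, add_termL_node, lw_node_false]
  exact fun _ => lw1

/-- Left to move loses `*L + {{*L, *R}}`. -/
theorem lw4 : ¬ LeftWins (add termL T₂) true := by
  rw [T₂, add_termL_node, lw_node_true]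
  rintro ⟨-, h⟩
  exact lw2 h

/-- Left to move wins `{*L} + {{*L, *R}}`. -/
theorem lw5 : LeftWins (add (single termL) T₂) true := by
  rw [single, T₂, add_node_node_true]
  exact Or.inl ⟨0, lw3⟩

/-- Left to move wins `{*L} + {*L, *R}`. -/
theorem lw6 : LeftWins (add (single termL) T₁) true := by
  rw [single, T₁, add_node_node_true]
  refine Or.inr ⟨0, ?_⟩
  simp [add_node_termL, add_termL_termL, lw_termL, lw_node_false]

/-- Right to move wins `{*L} + {*L, *R}`. -/
theorem lw7 : ¬ LeftWins (add (single termL) T₁) false := by
  rw [single, T₁, add_node_node_false]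
  rintro ⟨-, h⟩
  have := h 1
  simp [add_node_termR, add_termL_termR, lw_termR, lw_node_true] at this

/-- Right to move wins `{*L} + {{*L, *R}}`. -/
theorem lw8 : ¬ LeftWins (add (single termL) T₂) false := by
  rw [single, T₂, add_node_node_false]
  rintro ⟨h, -⟩
  exact lw4 (h 0)

/-- Left to move wins `*L + {{{*L, *R}}}`. -/
theorem lw9 : LeftWins (add termL T₃) true := by
  rw [T₃, add_termL_node, lw_node_true]
  exact ⟨0, lw3⟩

/-- Right to move wins `*L + {{{*L, *R}}}`. -/
theorem lw10 : ¬ LeftWins (add termL T₃) false := by
  rw [T₃, add_termL_node, lw_node_false]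
  intro h
  exact lw4 (h 0)

/-- Left to move loses `{*L} + {{{*L, *R}}}`. -/
theorem lw11 : ¬ LeftWins (add (single termL) T₃) true := by
  rw [single, T₃, add_node_node_true]
  rintro (⟨-, h⟩ | ⟨-, h⟩)
  · exact lw10 h
  · exact lw8 h

/-- Right to move loses `{*L} + {{{*L, *R}}}`. -/
theorem lw12 : LeftWins (add (single termL) T₃) false := by
  rw [single, T₃, add_node_node_false]
  exact ⟨fun _ => lw9, fun _ => lw5⟩

/-- Left to move wins `{*L, {*L}} + {{{*L, *R}}}`. -/
theorem lw13 : LeftWins (add A T₃) true := by
  have h := lw12
  rw [T₃] at h ⊢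
  rw [A, add_node_node_true]
  exact Or.inl ⟨1, h⟩

theorem termL_not_equiv : ¬ Equiv termL (single termL) := fun h =>
  not_equiv_of T₂ true lw5 lw4 (fun X => (h X).symm)

theorem A_not_equiv_L : ¬ Equiv A (single termL) := not_equiv_of T₃ true lw13 lw11

theorem lw14 : ¬ LeftWins (add (single termR) termL) true := by
  simp [single, add_node_termL, add_termR_termL, lw_node_true, lw_termR]

theorem termL_not_equiv_R : ¬ Equiv termL (single termR) :=
  not_equiv_of termL true (.terminal _) lw14

theorem A_not_equiv_R : ¬ Equiv A (single termR) := by
  refine not_equiv_of termL true ?_ lw14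
  simp [A, add_node_termL, add_termL_termL, lw_node_true, lw_termL, Fin.exists_fin_two]

theorem step_termL {H : Pos} : ¬ Step termL H := fun h => nomatch h

theorem not_isOption_termL {K : Pos} : ¬ IsOption K termL := fun h => nomatch h

theorem isOption_single {K H : Pos} (h : IsOption K (single H)) : K = H := by
  unfold single at h
  cases h
  rfl

theorem single_termL_reduced {H : Pos} : ¬ Step (single termL) H := by
  intro h
  unfold single at h
  cases h with
  | s1L _ _ i hi _ => exact termL_not_equiv hi
  | s1R _ _ i hi _ => exact termL_not_equiv_R hi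
  | s2 _ _ i hn _ => omega
  | sub _ _ i H h => exact step_termL h

theorem A_reduced {H : Pos} : ¬ Step A H := by
  intro h
  unfold A at h
  cases h with
  | s1L _ _ i _ h => obtain ⟨K, hK, -⟩ := h 0; exact not_isOption_termL hK
  | s1R _ _ i _ h => obtain ⟨K, hK, -⟩ := h 0; exact not_isOption_termL hK
  | s2 _ _ i hn h =>
    fin_cases i
    · obtain ⟨K, hK, hK'⟩ := h 1 (by decide)
      rw [isOption_single hK] at hK'
      exact termL_not_equiv hK'
    · obtain ⟨K, hK, -⟩ := h 0 (by decide)
      exact not_isOption_termL hK
  | sub _ _ i H h =>
    fin_cases i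
    · exact step_termL h
    · exact single_termL_reduced h

theorem single_A_reduced {H : Pos} : ¬ Step (single A) H := by
  intro h
  unfold single at h
  cases h with
  | s1L _ _ i hi _ => exact A_not_equiv_L hi
  | s1R _ _ i hi _ => exact A_not_equiv_R hi
  | s2 _ _ i hn _ => omega
  | sub _ _ i H h => exact A_reduced h

theorem step_G_termL : Step G termL := by
  refine Step.s1L 1 _ 1 (Equiv.refl _) ?_
  intro j
  fin_cases j
  · exact ⟨termL, IsOption.mk 1 ![termL, single termL] 0, Equiv.refl _⟩
  · exact ⟨termL, IsOption.mk 0 (fun _ => termL) 0, Equiv.refl _⟩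

theorem step_G_single_A : Step G (single A) := by
  refine Step.s2 1 ![A, single termL] 0 le_rfl ?_
  intro j hj
  fin_cases j
  · exact absurd rfl hj
  · exact ⟨termL, IsOption.mk 0 (fun _ => termL) 0, fun X => (single_A_equiv X).symm⟩

end Pos

open Pos in
/-- There is a position with two non-isomorphic reduced positions obtained from it by sequences of
simplification steps. -/
theorem result : ∃ G H K : Pos, SimplifiesTo G H ∧ SimplifiesTo G K ∧ Reduced H ∧ Reduced K ∧
    ¬ Iso H K :=
  ⟨G, termL, single A, Relation.ReflTransGen.single step_G_termL,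
    Relation.ReflTransGen.single step_G_single_A, fun _ => step_termL, fun _ => single_A_reduced,
    fun h => nomatch h⟩

end Pool.Agent.Results.MP_31d4f2_co.NotConfluent
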